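import Pool.Agent.Helper65.HF.StA

/-!
Project HF: module MUX (multiplying a leading monomial by a variable).
-/

set_option autoImplicit false

namespace Pool.Agent.Helper6.HF

open MvPolynomial Pool.Agent.Helper65.HF

theorem hMUX : Pool.Agent.Helper65.HF.sMUX := by
  intro hR A _ N J m s h
  obtain ⟨f, hfJ, hfh, hfm, hfb⟩ := h
  refine ⟨f * X s, J.mul_mem_right _ hfJ, ?_, ?_, ?_⟩
  · have h := hfh.mul (isHomogeneous_X A s)
    have hd : (m + Finsupp.single s 1).degree = m.degree + 1 := by
      rw [map_add, Finsupp.degree_single]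
    rw [hd]
    exact h
  · rw [coeff_mul_X]
    exact hfm
  · intro b hb
    rw [coeff_mul_X']
    split_ifs with hs
    · apply hfb
      have h1 : Finsupp.single s 1 ≤ b := by
        rw [Finsupp.single_le_iff]
        have h2 := Finsupp.mem_support_iff.1 hs
        omega
      have h3 : b = (b - Finsupp.single s 1) + Finsupp.single s 1 :=
        (tsub_add_cancel_of_le h1).symm
      rw [h3] at hb
      exact ((hR N).2.2.2.1 m (b - Finsupp.single s 1) (Finsupp.single s 1)).1 hb
    · rfl

end Pool.Agent.Helper6.HF
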